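import Mathlib
import Pool.Agent.H58.SpectralMin

set_option autoImplicit false

namespace Pool.Agent.Results.MP_7523ff_co.NoColorableMinimizer

open SimpleGraph Pool.Agent.H58.SpectralMin

open Classical in
/-- The spectral radius of a finite graph: the largest element of the (real) spectrum of its
adjacency matrix. -/
noncomputable def specRad {n : ℕ} (G : SimpleGraph (Fin n)) : ℝ :=
  sSup (spectrum ℝ (G.adjMatrix ℝ))

/-- `G` is a minimizer of `H(n,m)`: it is connected, has `m` edges, and its spectral radius is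
least among all connected graphs on `n` vertices with `m` edges. -/
def IsMinimizer (n m : ℕ) (G : SimpleGraph (Fin n)) : Prop :=
  G.Connected ∧ G.edgeSet.ncard = m ∧
    ∀ H : SimpleGraph (Fin n), H.Connected → H.edgeSet.ncard = m → specRad G ≤ specRad H

/-- circulant graph on `N+1` vertices with jumps `1..j` -/
def circ (N j : ℕ) : SimpleGraph (Fin (N + 1)) :=
  SimpleGraph.circulantGraph {i : Fin (N + 1) | 1 ≤ i.val ∧ i.val ≤ j}

def jumps (N j : ℕ) : Finset (Fin (N + 1)) :=
  Finset.univ.filter (fun i => i.val ∈ (Finset.Icc 1 j ∪ Finset.Icc (N + 1 - j) N))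

lemma card_jumps (N j : ℕ) (h2 : 2 * j ≤ N) : (jumps N j).card = 2 * j := by
  have h : (jumps N j).map Fin.valEmbedding = Finset.Icc 1 j ∪ Finset.Icc (N + 1 - j) N := by
    ext i
    simp only [jumps, Finset.mem_map, Finset.mem_filter, Finset.mem_univ, true_and,
      Fin.valEmbedding_apply]
    constructor
    · rintro ⟨a, ha, rfl⟩
      exact ha
    · intro hj
      refine ⟨⟨i, ?_⟩, hj, rfl⟩
      simp only [Finset.mem_union, Finset.mem_Icc] at hj
      omega
  rw [← Finset.card_map Fin.valEmbedding, h, Finset.card_union_of_disjoint]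
  · simp
    omega
  · rw [Finset.disjoint_left]
    intro a ha hb
    simp only [Finset.mem_Icc] at ha hb
    omega

lemma adj_iff (N j : ℕ) (h2 : 2 * j ≤ N) (u v : Fin (N + 1)) :
    (circ N j).Adj u v ↔ (v - u) ∈ jumps N j := by
  unfold circ jumps
  rw [SimpleGraph.circulantGraph_adj]
  simp only [Set.mem_ofPred_eq, Finset.mem_filter, Finset.mem_univ, true_and, Finset.mem_union,
    Finset.mem_Icc]
  have h1 : (u - v).val = if v.val ≤ u.val then u.val - v.val else N + 1 + u.val - v.val := by
    have hu := u.isLt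
    have hv := v.isLt
    rw [Fin.sub_def]
    simp only
    split_ifs with h
    · rw [show N + 1 - v.val + u.val = (u.val - v.val) + (N + 1) by omega,
        Nat.add_mod_right, Nat.mod_eq_of_lt (by omega)]
    · rw [Nat.mod_eq_of_lt (by omega)]
      omega
  have h2 : (v - u).val = if u.val ≤ v.val then v.val - u.val else N + 1 + v.val - u.val := by
    have hu := u.isLt
    have hv := v.isLt
    rw [Fin.sub_def]
    simp only
    split_ifs with h
    · rw [show N + 1 - u.val + v.val = (v.val - u.val) + (N + 1) by omega,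
        Nat.add_mod_right, Nat.mod_eq_of_lt (by omega)]
    · rw [Nat.mod_eq_of_lt (by omega)]
      omega
  have h3 : u = v ↔ u.val = v.val := Fin.ext_iff
  rw [h3, h1, h2]
  have hu := u.isLt
  have hv := v.isLt
  split_ifs <;> omega

lemma regular (N j : ℕ) (h2 : 2 * j ≤ N) [DecidableRel (circ N j).Adj] :
    (circ N j).IsRegularOfDegree (2 * j) := by
  intro v
  have h : (circ N j).neighborFinset v = (jumps N j).map (addLeftEmbedding v) := by
    ext w
    rw [SimpleGraph.mem_neighborFinset, adj_iff N j h2, Finset.mem_map]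
    constructor
    · intro h
      exact ⟨w - v, h, by simp [addLeftEmbedding]⟩
    · rintro ⟨a, ha, rfl⟩
      simpa [addLeftEmbedding] using ha
  rw [← SimpleGraph.card_neighborFinset_eq_degree, h, Finset.card_map, card_jumps N j h2]

lemma card_edges (N j : ℕ) (h2 : 2 * j ≤ N) [DecidableRel (circ N j).Adj] :
    (circ N j).edgeFinset.card = j * (N + 1) := by
  have h := (circ N j).sum_degrees_eq_twice_card_edges
  have h2 : ∀ v, (circ N j).degree v = 2 * j := fun v => regular N j h2 v
  simp only [h2, Finset.sum_const, Finset.card_univ, Fintype.card_fin, smul_eq_mul] at h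
  have : 2 * (j * (N + 1)) = 2 * (circ N j).edgeFinset.card := by
    rw [← h]; ring
  omega

lemma connected (N j : ℕ) (h2 : 2 * j ≤ N) (hj : 1 ≤ j) : (circ N j).Connected := by
  have h := SimpleGraph.cycleGraph_connected (n := N)
  refine h.mono ?_
  rw [SimpleGraph.cycleGraph_eq_circulantGraph]
  intro u v huv
  unfold circ
  rw [SimpleGraph.circulantGraph_adj] at huv ⊢
  refine ⟨huv.1, ?_⟩
  have h1 : (1 : Fin (N + 1)).val = 1 := by
    rw [Fin.val_one']
    exact Nat.mod_eq_of_lt (by omega)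
  rcases huv.2 with h | h
  · left
    rw [Set.mem_singleton_iff] at h
    rw [Set.mem_ofPred_eq, h, h1]
    omega
  · right
    rw [Set.mem_singleton_iff] at h
    rw [Set.mem_ofPred_eq, h, h1]
    omega

lemma turan_two (n j : ℕ) (hn : 4 * j + 1 ≤ n) (hodd : Odd n) :
    j * n ≤ (turanGraph n 2).edgeFinset.card := by
  rw [card_edgeFinset_turanGraph]
  obtain ⟨t, rfl⟩ := hodd
  have h1 : (2 * t + 1) % 2 = 1 := by omega
  rw [h1]
  have h2 : ((2 * t + 1) ^ 2 - 1 ^ 2) * (2 - 1) / (2 * 2) = t ^ 2 + t := by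
    rw [show (2 * t + 1) ^ 2 - 1 ^ 2 = 4 * (t ^ 2 + t) by
      rw [show (2 * t + 1) ^ 2 = 4 * (t ^ 2 + t) + 1 by ring]; omega]
    simp
  rw [h2]
  have h3 : 2 * j ≤ t := by omega
  nlinarith

lemma turan_one (n : ℕ) : (turanGraph n 1).edgeSet = ∅ := by
  rw [SimpleGraph.edgeSet_eq_empty]
  ext u v
  simp [turanGraph, Nat.mod_one]

lemma ncard_edgeSet {n : ℕ} (H : SimpleGraph (Fin n)) [DecidableRel H.Adj] :
    H.edgeSet.ncard = H.edgeFinset.card := by
  rw [← SimpleGraph.coe_edgeFinset, Set.ncard_coe_finset]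

/-- a 2-colorable `d`-regular graph, `d > 0`, has an even number of vertices -/
lemma even_of_colorable {n d : ℕ} (G : SimpleGraph (Fin n)) [DecidableRel G.Adj] (hd : 0 < d)
    (hreg : G.IsRegularOfDegree d) (hc : G.Colorable 2) : Even n := by
  obtain ⟨c⟩ := hc
  set A : Finset (Fin n) := Finset.univ.filter (fun v => c v = 0) with hA
  set B : Finset (Fin n) := Finset.univ.filter (fun v => c v = 1) with hB
  have hAB : ∀ v : Fin n, v ∈ A ∨ v ∈ B := by
    intro v
    have : c v = 0 ∨ c v = 1 := by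
      generalize c v = x
      revert x
      decide
    rcases this with h | h
    · left; simp [hA, h]
    · right; simp [hB, h]
  have hdis : Disjoint A B := by
    rw [Finset.disjoint_left]
    intro v h1 h2
    simp only [hA, hB, Finset.mem_filter, Finset.mem_univ, true_and] at h1 h2
    rw [h1] at h2
    exact absurd h2 (by decide)
  have hunion : A ∪ B = Finset.univ := by
    ext v
    simp only [Finset.mem_union, Finset.mem_univ, iff_true]
    exact hAB v
  have hcardn : A.card + B.card = n := by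
    rw [← Finset.card_union_of_disjoint hdis, hunion, Finset.card_univ, Fintype.card_fin]
  have hAd : ∀ v ∈ A, ∑ w ∈ B, (if G.Adj v w then 1 else 0) = d := by
    intro v hv
    rw [← Finset.card_filter, ← hreg v, ← SimpleGraph.card_neighborFinset_eq_degree]
    congr 1
    ext w
    simp only [Finset.mem_filter, SimpleGraph.mem_neighborFinset]
    constructor
    · exact fun h => h.2
    · intro h
      refine ⟨?_, h⟩
      rcases hAB w with hw | hw
      · exfalso
        simp only [hA, Finset.mem_filter, Finset.mem_univ, true_and] at hv hw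
        exact c.valid h (by rw [hv, hw])
      · exact hw
  have hBd : ∀ w ∈ B, ∑ v ∈ A, (if G.Adj v w then 1 else 0) = d := by
    intro w hw
    rw [← Finset.card_filter, ← hreg w, ← SimpleGraph.card_neighborFinset_eq_degree]
    congr 1
    ext v
    simp only [Finset.mem_filter, SimpleGraph.mem_neighborFinset]
    constructor
    · exact fun h => h.2.symm
    · intro h
      refine ⟨?_, h.symm⟩
      rcases hAB v with hv | hv
      · exact hv
      · exfalso
        simp only [hB, Finset.mem_filter, Finset.mem_univ, true_and] at hv hw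
        exact c.valid h (by rw [hv, hw])
  have h1 : A.card * d = B.card * d := by
    calc A.card * d = ∑ v ∈ A, ∑ w ∈ B, (if G.Adj v w then 1 else 0) := by
          rw [Finset.sum_congr rfl hAd, Finset.sum_const, smul_eq_mul]
      _ = ∑ w ∈ B, ∑ v ∈ A, (if G.Adj v w then 1 else 0) := Finset.sum_comm
      _ = B.card * d := by
          rw [Finset.sum_congr rfl hBd, Finset.sum_const, smul_eq_mul]
  have h2 : A.card = B.card := Nat.eq_of_mul_eq_mul_right hd h1
  exact ⟨A.card, by omega⟩

/-- For every odd `n` and every `j` with `1 ≤ j` and `4j + 1 ≤ n`, put `m = jn`.  Then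
`e(T_{n,1}) < m ≤ e(T_{n,2})` (so `r(n,m) = 2`), `H(n,m)` has a minimizer, and no minimizer of
`H(n,m)` is `2`-colorable. -/
theorem odd_case : ∀ n j : ℕ, Odd n → 1 ≤ j → 4 * j + 1 ≤ n →
    (turanGraph n 1).edgeSet.ncard < j * n ∧ j * n ≤ (turanGraph n 2).edgeSet.ncard ∧
    (∃ G : SimpleGraph (Fin n), IsMinimizer n (j * n) G) ∧
    ∀ G : SimpleGraph (Fin n), IsMinimizer n (j * n) G → ¬ G.Colorable 2 := by
  classical
  intro n j hodd hj hn
  obtain ⟨N, rfl⟩ : ∃ N, n = N + 1 := ⟨n - 1, by omega⟩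
  have h2 : 2 * j ≤ N := by omega
  have hlow : ∀ H : SimpleGraph (Fin (N + 1)), H.edgeSet.ncard = j * (N + 1) →
      ((2 * j : ℕ) : ℝ) ≤ specRad H := by
    intro H hHm
    rw [ncard_edgeSet] at hHm
    have h2 := two_mul_edges_le H
    rw [hHm, Fintype.card_fin] at h2
    have hpos : (0 : ℝ) < ((N + 1 : ℕ) : ℝ) := by positivity
    unfold specRad
    refine le_of_mul_le_mul_right (le_trans (b := 2 * ((j * (N + 1) : ℕ) : ℝ)) (le_of_eq ?_) ?_) hpos
    · push_cast
      ring
    · convert h2
  have hcm : (circ N j).edgeSet.ncard = j * (N + 1) := by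
    rw [ncard_edgeSet]
    exact card_edges N j h2
  have hup : specRad (circ N j) ≤ ((2 * j : ℕ) : ℝ) := by
    have := sSup_spectrum_of_regular (circ N j) (regular N j h2)
    unfold specRad
    convert this
  refine ⟨?_, ?_, ⟨circ N j, connected N j h2 hj, hcm, ?_⟩, ?_⟩
  · rw [turan_one, Set.ncard_empty]
    positivity
  · rw [ncard_edgeSet]
    exact turan_two (N + 1) j hn hodd
  · intro H _ hHm
    exact le_trans hup (hlow H hHm)
  · intro G hG hcol
    obtain ⟨_, hGm, hGmin⟩ := hG
    have hle : specRad G ≤ ((2 * j : ℕ) : ℝ) :=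
      le_trans (hGmin (circ N j) (connected N j h2 hj) hcm) hup
    have heq : specRad G = ((2 * j : ℕ) : ℝ) := le_antisymm hle (hlow G hGm)
    have hreg : G.IsRegularOfDegree (2 * j) := by
      intro v
      have hGm' := hGm
      rw [ncard_edgeSet] at hGm'
      have h3 := degree_eq_of_le G (by
        rw [hGm', Fintype.card_fin]
        have : sSup (spectrum ℝ (G.adjMatrix ℝ)) = ((2 * j : ℕ) : ℝ) := by
          rw [← heq]
          unfold specRad
          congr!
        rw [this]
        push_cast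
        apply le_of_eq
        ring) v
      have h4 : sSup (spectrum ℝ (G.adjMatrix ℝ)) = ((2 * j : ℕ) : ℝ) := by
        rw [← heq]
        unfold specRad
        congr!
      rw [h4] at h3
      exact_mod_cast h3
    have hev := even_of_colorable G (by omega : 0 < 2 * j) hreg hcol
    rw [← Nat.not_odd_iff_even] at hev
    exact hev hodd

lemma exists_k (α c : ℝ) (hα : α < 2) (n₀ : ℕ) :
    ∃ k : ℕ, 1 ≤ k ∧ n₀ ≤ 4 * k + 1 ∧
      c * ((4 * k + 1 : ℕ) : ℝ) ^ α ≤ ((k * (4 * k + 1) : ℕ) : ℝ) := by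
  have ht : Filter.Tendsto (fun k : ℕ => (((4 * k + 1 : ℕ) : ℝ)) ^ (2 - α)) Filter.atTop
      Filter.atTop := by
    refine (tendsto_rpow_atTop (by linarith)).comp ?_
    refine tendsto_natCast_atTop_atTop.comp ?_
    refine Filter.tendsto_atTop_mono (f := fun k => k) (fun k => by omega) ?_
    exact Filter.tendsto_id
  have h1 := ht.eventually (Filter.eventually_ge_atTop (8 * c))
  obtain ⟨k, hk⟩ := (h1.and (Filter.eventually_ge_atTop (n₀ + 2))).exists
  refine ⟨k, by omega, by omega, ?_⟩
  have hn : (0 : ℝ) < ((4 * k + 1 : ℕ) : ℝ) := by positivity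
  have h2 : ((4 * k + 1 : ℕ) : ℝ) ^ (2 : ℝ) =
      ((4 * k + 1 : ℕ) : ℝ) ^ (2 - α) * ((4 * k + 1 : ℕ) : ℝ) ^ α := by
    rw [← Real.rpow_add hn]
    norm_num
  have h3 : 8 * c * ((4 * k + 1 : ℕ) : ℝ) ^ α ≤ ((4 * k + 1 : ℕ) : ℝ) ^ (2 : ℝ) := by
    rw [h2]
    exact mul_le_mul_of_nonneg_right hk.1 (by positivity)
  rw [Real.rpow_two] at h3
  have hk1 : (1 : ℝ) ≤ k := by exact_mod_cast (by omega : 1 ≤ k)
  push_cast at h3 ⊢
  nlinarith [h3, hk1]

/-- For every `α < 2`, every `c` and every `n₀` there are `n ≥ n₀` and `m` with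
`c n^α ≤ m ≤ C(n,2)` such that, with `r` the integer with `e(T_{n,r-1}) < m ≤ e(T_{n,r})`,
the set of minimizers of `H(n,m)` is nonempty and NO minimizer is `r`-colorable. -/
theorem result : ∀ α : ℝ, α < 2 → ∀ c : ℝ, ∀ n₀ : ℕ, ∃ n : ℕ, n₀ ≤ n ∧ ∃ m : ℕ,
    c * (n : ℝ) ^ α ≤ (m : ℝ) ∧ m ≤ n.choose 2 ∧
    ∃ r : ℕ, 2 ≤ r ∧ (turanGraph n (r - 1)).edgeSet.ncard < m ∧
      m ≤ (turanGraph n r).edgeSet.ncard ∧
      (∃ G : SimpleGraph (Fin n), IsMinimizer n m G) ∧
      ∀ G : SimpleGraph (Fin n), IsMinimizer n m G → ¬ G.Colorable r := by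
  intro α hα c n₀
  obtain ⟨k, hk, hn₀, hck⟩ := exists_k α c hα n₀
  obtain ⟨h1, h2, h3, h4⟩ := odd_case (4 * k + 1) k ⟨2 * k, by ring⟩ hk le_rfl
  refine ⟨4 * k + 1, hn₀, k * (4 * k + 1), hck, ?_, 2, le_rfl, h1, h2, h3, h4⟩
  rw [Nat.choose_two_right, Nat.le_div_iff_mul_le (by norm_num)]
  simp only [Nat.add_sub_cancel]
  nlinarith

end Pool.Agent.Results.MP_7523ff_co.NoColorableMinimizer
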